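import Pool.Agent.H994R2.JL.PDefs
import Pool.Agent.H994R2.JL.Core
import Pool.Agent.H994R2.JL.Fin1

/-!
# From the core theorem to predictors and DNF formulas
-/

namespace Pool.Agent.H994R2.JL

open Finset DomAC0 H568R2 DNFPrediction

/-- the term that fixes the variables in `T` to the indicator of `S` -/
def termOf {m : ℕ} (T S : Finset (Fin m)) : Finset (Fin m × Bool) :=
  T.image (fun j => (j, decide (j ∈ S)))

/-- the parity of the variables in `T` as a DNF formula -/
def parDNF {m : ℕ} (T : Finset (Fin m)) : DNF m :=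
  ((T.powerset).filter (fun S => Odd S.card)).image (termOf T)

lemma parDNF_card {m : ℕ} (T : Finset (Fin m)) : (parDNF T).card ≤ 2 ^ T.card := by
  unfold parDNF
  refine Finset.card_image_le.trans ((Finset.card_filter_le _ _).trans ?_)
  rw [Finset.card_powerset]

lemma parDNF_width {m : ℕ} (T : Finset (Fin m)) : ∀ t ∈ parDNF T, t.card ≤ T.card := by
  intro t ht
  unfold parDNF at ht
  rw [Finset.mem_image] at ht
  obtain ⟨S, _, rfl⟩ := ht
  exact Finset.card_image_le

lemma parDNF_eval {m : ℕ} (T : Finset (Fin m)) (x : Fin m → Bool) :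
    (parDNF T).eval x = parT T x := by
  unfold DNF.eval parT
  rw [decide_eq_decide]
  constructor
  · rintro ⟨t, ht, hx⟩
    unfold parDNF at ht
    rw [Finset.mem_image] at ht
    obtain ⟨S, hS, rfl⟩ := ht
    rw [Finset.mem_filter, Finset.mem_powerset] at hS
    have : T.filter (fun j => x j = true) = S := by
      ext j
      rw [Finset.mem_filter]
      constructor
      · rintro ⟨hj, hxj⟩
        have := hx (j, decide (j ∈ S)) (Finset.mem_image_of_mem _ hj)
        simp only at this
        rw [hxj] at this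
        exact of_decide_eq_true this.symm
      · intro hj
        refine ⟨hS.1 hj, ?_⟩
        have := hx (j, decide (j ∈ S)) (Finset.mem_image_of_mem _ (hS.1 hj))
        simp only at this
        rw [this]
        exact decide_eq_true hj
    rw [this]
    exact hS.2
  · intro hodd
    refine ⟨termOf T (T.filter (fun j => x j = true)), ?_, ?_⟩
    · unfold parDNF
      apply Finset.mem_image_of_mem
      rw [Finset.mem_filter, Finset.mem_powerset]
      exact ⟨Finset.filter_subset _ _, hodd⟩
    · intro l hl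
      unfold termOf at hl
      rw [Finset.mem_image] at hl
      obtain ⟨j, hj, rfl⟩ := hl
      show x j = decide (j ∈ T.filter (fun j => x j = true))
      by_cases h : x j = true
      · rw [h]
        symm
        apply decide_eq_true
        rw [Finset.mem_filter]
        exact ⟨hj, h⟩
      · have h' : x j = false := by simpa using h
        rw [h']
        symm
        apply decide_eq_false
        rw [Finset.mem_filter]
        rintro ⟨_, h2⟩
        exact h h2

/-- leaves of a predictor -/
def lfP {m N R : ℕ} (P : Predictor m N R) (u : Fin R → Bool) :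
    Fin P.leaves → Mat (N + 1) m → Col (N + 1) → Bool :=
  fun e Z y => P.leaf e (tr.symm Z) (fun i => y i.castSucc) u

lemma lfP_local {m N R w : ℕ} (P : Predictor m N R) (hP : ∀ e, (P.reads e).card ≤ w)
    (u : Fin R → Bool) (e : Fin P.leaves) : Local w (lfP P u e) := by
  refine ⟨P.reads e, hP e, ?_⟩
  intro X X' y h
  apply P.leaf_reads
  intro i j hj
  rw [tr_symm_apply, tr_symm_apply, h j hj]

open Classical in
theorem predictor_bound (hAP : StubAP) (hNA : StubNA) (hNB : StubNB) (hNC : StubNC)
    (hPA : StubPA) (d k : ℕ) (hd : 1 ≤ d) (hk : 2 ≤ k) (η : ℝ) (hη : 0 < η) :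
    ∃ M : ℕ, ∀ m, M ≤ m → ∀ (N R : ℕ) (P : Predictor m N R),
    P.circuit.depth ≤ d → (∀ e, (P.reads e).card ≤ (k - 1) / 2) → P.nodes ^ 5 ≤ m ^ k →
    ∃ T : Finset (Fin m), T.card = k ∧ P.success (parT T) ≤ 1 / 2 + η := by
  obtain ⟨M, hM⟩ := core_predictor hAP hNA hNB hNC d k hd hk η hη
  refine ⟨max M k, ?_⟩
  intro m hm N R P hdep hreads hnodes
  have hmM : M ≤ m := le_trans (le_max_left _ _) hm
  have hkm : k ≤ m := le_trans (le_max_right _ _) hm
  -- for each string of random bits
  have h1 : ∀ u : Fin R → Bool, ∑ a ∈ injs k m, ∑ Z : Mat (N + 1) m,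
      (if P.circuit.nodeVal (fun l => lfP P u l Z (par a Z)) P.circuit.output =
        par a Z (Fin.last N) then (1 : ℝ) else 0) ≤
      (2 : ℝ) ^ ((N + 1) * m) * ((1 / 2 + η) * (injs k m).card) := by
    intro u
    refine hM m hmM N (Fin P.leaves) (lfP P u) P.circuit P.circuit.output
      (lfP_local P hreads u) ?_ hdep ?_
    · intro j X y y' h
      unfold lfP
      congr 1
      funext i
      exact h i
    · rw [Fintype.card_fin, add_comm]
      exact hnodes
  have h2 : ∑ a ∈ injs k m, ∑ u : Fin R → Bool, ∑ Z : Mat (N + 1) m,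
      (if P.circuit.nodeVal (fun l => lfP P u l Z (par a Z)) P.circuit.output =
        par a Z (Fin.last N) then (1 : ℝ) else 0) ≤
      ((1 / 2 + η) * 2 ^ ((N + 1) * m + R)) * (injs k m).card := by
    rw [Finset.sum_comm]
    refine (Finset.sum_le_card_nsmul _ _ _ (fun u _ => h1 u)).trans (le_of_eq ?_)
    rw [nsmul_eq_mul, Finset.card_univ, Fintype.card_fun, Fintype.card_fin, Fintype.card_bool,
      pow_add]
    push_cast
    ring
  obtain ⟨a, ha, hsum⟩ := exists_small (injs k m) (injs_card_pos hkm) _ _ h2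
  have hainj : Function.Injective a := mem_injs.1 ha
  set T : Finset (Fin m) := univ.image a with hT
  have hTc : T.card = k := by
    rw [hT, Finset.card_image_of_injective _ hainj, Finset.card_univ, Fintype.card_fin]
  refine ⟨T, hTc, ?_⟩
  unfold Predictor.success
  rw [div_le_iff₀ (by positivity)]
  refine le_trans (le_of_eq ?_) hsum
  have h3 : ((univ.filter (fun p : (Fin (N + 1) → Fin m → Bool) × (Fin R → Bool) =>
    P.guess p.1 (fun i => parT T (p.1 i.castSucc)) p.2 = parT T (p.1 (Fin.last N)))).card : ℝ) =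
      ∑ p : (Fin (N + 1) → Fin m → Bool) × (Fin R → Bool),
      (if P.guess p.1 (fun i => parT T (p.1 i.castSucc)) p.2 = parT T (p.1 (Fin.last N))
        then (1 : ℝ) else 0) := by
    rw [Finset.sum_boole]
  rw [h3, Fintype.sum_prod_type_right]
  refine Finset.sum_congr rfl fun u _ => ?_
  rw [← (tr (N := N + 1) (m := m)).symm.sum_comp]
  refine Finset.sum_congr rfl fun Z _ => ?_
  have hlab : ∀ i, parT T ((tr.symm Z) i) = par a Z i := fun i => hPA.2 m k (N + 1) a hainj Z i
  have hg : P.guess (tr.symm Z) (fun i => parT T ((tr.symm Z) i.castSucc)) u =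
      P.circuit.nodeVal (fun l => lfP P u l Z (par a Z)) P.circuit.output := by
    unfold Predictor.guess Circuit.eval lfP
    congr 1
    funext e
    congr 1
    funext i
    exact hlab i.castSucc
  show (if P.guess (tr.symm Z) (fun i => parT T ((tr.symm Z) i.castSucc)) u =
    parT T ((tr.symm Z) (Fin.last N)) then (1 : ℝ) else 0) = _
  rw [hg, hlab (Fin.last N)]

/-- polynomial-size constant-depth predictors for DNF formulas with few terms -/
theorem predictor_main (hAP : StubAP) (hNA : StubNA) (hNB : StubNB) (hNC : StubNC)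
    (hPA : StubPA) (hDI : StubDI) (s : ℕ → ℕ) (hs : Filter.Tendsto s Filter.atTop Filter.atTop)
    (c d : ℕ) (η : ℝ) (hη : 0 < η) : ∀ᶠ m in Filter.atTop, ∀ (N R : ℕ) (P : Predictor m N R),
    P.circuit.depth ≤ d → P.nodes ≤ m ^ c → (∀ e, (P.reads e).card ≤ c) →
    ∃ F : DNF m, F.card ≤ s m ∧ (∀ t ∈ F, t.card ≤ s m) ∧ P.success F.eval ≤ 1 / 2 + η := by
  have hex : ∀ k : ℕ, ∃ M : ℕ, 2 ≤ k → ∀ m, M ≤ m → ∀ (N R : ℕ) (P : Predictor m N R),
      P.circuit.depth ≤ k → (∀ e, (P.reads e).card ≤ (k - 1) / 2) → P.nodes ^ 5 ≤ m ^ k →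
      ∃ T : Finset (Fin m), T.card = k ∧ P.success (parT T) ≤ 1 / 2 + 1 / k := by
    intro k
    by_cases hk : 2 ≤ k
    · obtain ⟨M, hM⟩ := predictor_bound hAP hNA hNB hNC hPA k k (by omega) hk (1 / k)
        (by positivity)
      exact ⟨M, fun _ => hM⟩
    · exact ⟨0, fun h => absurd h hk⟩
  choose M hM using hex
  have hex2 : ∀ k : ℕ, ∃ m0 : ℕ, ∀ m, m0 ≤ m → 2 ^ k ≤ s m := fun k =>
    Filter.eventually_atTop.1 (hs.eventually_ge_atTop (2 ^ k))
  choose M2 hM2 using hex2
  obtain ⟨k, hk1, hk2⟩ := hDI (fun k => max (M k) (M2 k))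
  obtain ⟨n0, hn0⟩ := exists_nat_gt (1 / η)
  filter_upwards [hk2, hk1.eventually_ge_atTop (max (max n0 d) (5 * c + 2)),
    Filter.eventually_ge_atTop 1] with m h1 h2 hm1
  intro N R P hdep hnodes hreads
  have h3 : 5 * c + 2 ≤ k m := le_trans (le_max_right _ _) h2
  have h4 : d ≤ k m := le_trans (le_trans (le_max_right _ _) (le_max_left _ _)) h2
  have h5 : n0 ≤ k m := le_trans (le_trans (le_max_left _ _) (le_max_left _ _)) h2
  have hs1 : 2 ^ k m ≤ s m := hM2 (k m) m (le_trans (le_max_right _ _) h1)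
  obtain ⟨T, hT, hsucc⟩ := hM (k m) (by omega) m (le_trans (le_max_left _ _) h1) N R P
    (hdep.trans h4) (fun e => (hreads e).trans (by omega)) (by
      calc P.nodes ^ 5 ≤ (m ^ c) ^ 5 := Nat.pow_le_pow_left hnodes 5
        _ = m ^ (5 * c) := by rw [← pow_mul]; congr 1; ring
        _ ≤ m ^ k m := Nat.pow_le_pow_right hm1 (by omega))
  refine ⟨parDNF T, ?_, ?_, ?_⟩
  · refine (parDNF_card T).trans ?_
    rw [hT]
    exact hs1
  · intro t ht
    have := parDNF_width T t ht
    rw [hT] at this
    exact this.trans (le_trans (Nat.lt_two_pow_self).le hs1)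
  · have he : (parDNF T).eval = parT T := funext (parDNF_eval T)
    rw [he]
    refine hsucc.trans ?_
    have h6 : 1 / η < (k m : ℝ) := lt_of_lt_of_le hn0 (by exact_mod_cast h5)
    have h7 : (0 : ℝ) < k m := by
      have : (0 : ℝ) < 1 / η := by positivity
      linarith
    have h8 : (1 : ℝ) / k m ≤ η := by
      rw [div_le_iff₀ h7]
      rw [div_lt_iff₀ hη] at h6
      linarith
    linarith

end Pool.Agent.H994R2.JL
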