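import Pool.Agent.H568R2.Defs

/-!
# DNF formulas and predictors built from constant-depth circuits

Boolean functions are maps `(Fin m → Bool) → Bool`.
-/

namespace DNFPrediction

open Finset DomAC0

/-- A DNF formula on `m` variables: a finite set of terms, each term is a finite set of literals
`(j, b)` (the literal `(j, b)` says that the variable `j` has the value `b`). -/
abbrev DNF (m : ℕ) := Finset (Finset (Fin m × Bool))

/-- The value of a DNF formula: some term has all its literals satisfied. -/
def DNF.eval {m : ℕ} (F : DNF m) (x : Fin m → Bool) : Bool :=
  decide (∃ t ∈ F, ∀ l ∈ t, x l.1 = l.2)

/-- A predictor that gets `N` labelled examples, one further example without its label (the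
example number `Fin.last N`) and `R` random bits, and has to guess the missing label.  It is a
Boolean circuit (NOT gates, unbounded fan-in AND and OR gates) whose leaves are arbitrary Boolean
functions of the `N + 1` examples, the `N` labels and the random bits, where the leaf `e` reads
only the attributes in `reads e` of the examples (but all labels and all random bits). -/
structure Predictor (m N R : ℕ) where
  leaves : ℕ
  leaf : Fin leaves → (Fin (N + 1) → Fin m → Bool) → (Fin N → Bool) → (Fin R → Bool) → Bool
  reads : Fin leaves → Finset (Fin m)
  leaf_reads : ∀ e x x' y u, (∀ i, ∀ j ∈ reads e, x i j = x' i j) →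
    leaf e x y u = leaf e x' y u
  circuit : Circuit (Fin leaves)

namespace Predictor

variable {m N R : ℕ}

/-- The number of nodes: leaves and gates. -/
def nodes (P : Predictor m N R) : ℕ := P.leaves + P.circuit.size

/-- The guess for the label of the last example. -/
noncomputable def guess (P : Predictor m N R) (x : Fin (N + 1) → Fin m → Bool) (y : Fin N → Bool)
    (u : Fin R → Bool) : Bool :=
  P.circuit.eval (fun e => P.leaf e x y u)

/-- The probability, over `N + 1` uniform examples and uniform random bits, that the guess is
right when the target function is `f`: the first `N` examples are labelled by `f`. -/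
noncomputable def success (P : Predictor m N R) (f : (Fin m → Bool) → Bool) : ℝ :=
  ((univ.filter (fun p : (Fin (N + 1) → Fin m → Bool) × (Fin R → Bool) =>
    P.guess p.1 (fun i => f (p.1 i.castSucc)) p.2 = f (p.1 (Fin.last N)))).card : ℝ) /
    2 ^ ((N + 1) * m + R)

end Predictor

end DNFPrediction
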